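import Mathlib
import Pool.Agent.H.MP_f24352_gt.A

open Set Filter Topology

namespace Pool.Agent.Results.MP_f24352_gt.NotChar

theorem result : ∃ (X : Type) (_ : AddCommGroup X) (_ : TopologicalSpace X),
    IsTopologicalAddGroup X ∧ T2Space X ∧
    (∀ U ∈ 𝓝 (0 : X), ∃ E : Set X, E.Finite ∧ ∀ x, ∃ u ∈ U, ∃ e ∈ E, u + e = x) ∧
    ∃ F : AddSubgroup X, IsClosed (F : Set X) ∧ IsGδ (F : Set X) ∧
      ∀ v : ℕ → X →+ UnitAddCircle, (∀ n, Continuous (v n)) →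
        (F : Set X) ≠ ⋂ n, {x | v n x = 0} := by
  obtain ⟨I, X, h⟩ := Pool.Agent.H.MP_f24352_gt.main
  exact ⟨X, inferInstance, inferInstance, inferInstance, inferInstance,
    Pool.Agent.H.MP_f24352_gt.pre X, h⟩

end Pool.Agent.Results.MP_f24352_gt.NotChar
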